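import Pool.Agent.H920R2.Sr1

/-!
Smooth algebras over regular rings are regular, and the regular uniformization of a local ring of a
domain `E` by a ring `T ⊆ K` with regular local rings.
-/

set_option autoImplicit false
set_option linter.unusedSectionVars false

open TensorProduct

namespace Pool.Agent.P8H16.LB

/-- A smooth algebra over a regular ring is regular. -/
theorem regular_of_smooth_ring {B T : Type} [CommRing B] [IsRegularRing B] [CommRing T]
    [Algebra B T] [Algebra.Smooth B T] (q : Ideal T) [q.IsPrime] :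
    IsRegularLocalRing (Localization.AtPrime q) := by
  have hsm : Algebra.IsSmoothAt B q := inferInstance
  obtain ⟨f, hf, n, alg, tower, het⟩ :=
    Algebra.IsSmoothAt.exists_isStandardEtale_mvPolynomial (R := B) (S := T) (p := q)
  have het' : Algebra.Etale (MvPolynomial (Fin n) B) (Localization.Away f) := inferInstance
  have hQ : (Ideal.map (algebraMap T (Localization.Away f)) q).IsPrime :=
    IsLocalization.isPrime_of_isPrime_disjoint (.powers f) _ _ ‹_›
      ((Ideal.disjoint_powers_iff_notMem_of_isPrime _).mpr hf)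
  have h1 := Pool.Agent.H920R2.regular_of_etale (P := MvPolynomial (Fin n) B)
    (Ideal.map (algebraMap T (Localization.Away f)) q)
  have h2 : (Ideal.map (algebraMap T (Localization.Away f)) q).comap
      (algebraMap T (Localization.Away f)) = q :=
    IsLocalization.under_map_of_isPrime_disjoint (.powers f) _ ‹_›
      ((Ideal.disjoint_powers_iff_notMem_of_isPrime _).mpr hf)
  have h3 := IsLocalization.isLocalization_isLocalization_atPrime_isLocalization (.powers f)
    (Localization.AtPrime (Ideal.map (algebraMap T (Localization.Away f)) q))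
    (Ideal.map (algebraMap T (Localization.Away f)) q)
  simp only [h2] at h3
  exact IsRegularLocalRing.of_ringEquiv (IsLocalization.algEquiv q.primeCompl
    (Localization.AtPrime (Ideal.map (algebraMap T (Localization.Away f)) q))
    (Localization.AtPrime q)).toRingEquiv

/-- A tensor product of smooth algebras over a regular ring. -/
theorem regular_tensor {B S S' E : Type} [CommRing B] [IsRegularRing B] [CommRing S] [CommRing S']
    [CommRing E] [Algebra S S'] [Algebra S E] [Algebra.Smooth S E] [Algebra B S']
    [Algebra.Smooth B S'] (q : Ideal (S' ⊗[S] E)) [q.IsPrime] :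
    IsRegularLocalRing (Localization.AtPrime q) := by
  have h1 : IsScalarTower B S' (S' ⊗[S] E) := inferInstance
  have h2 : Algebra.Smooth S' (S' ⊗[S] E) := inferInstance
  have h3 : Algebra.Smooth B (S' ⊗[S] E) := Algebra.Smooth.comp B S' (S' ⊗[S] E)
  exact regular_of_smooth_ring (B := B) q

/-- Uniformization of a local ring `R` of `E` by a ring `T` with regular local rings. -/
theorem lu_local_ring {E R K T : Type} [CommRing E] [CommRing R] [Algebra E R]
    (P : Ideal E) [P.IsPrime] [IsLocalization.AtPrime R P] [Field K]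
    [Algebra R K] (g : E →+* K) (hg : ∀ a, g a = algebraMap R K (algebraMap E R a))
    (V : ValuationSubring K) (hV : ∀ r : R, algebraMap R K r ∈ V)
    (hVm : ∀ a : E, a ∉ P → ¬ V.valuation (g a) < 1)
    [CommRing T] (τ : T →+* K) (hτ : Function.Injective τ)
    (hreg : ∀ (q : Ideal T) [q.IsPrime], IsRegularLocalRing (Localization.AtPrime q))
    (σ : E →+* T) (hσ : ∀ a, τ (σ a) = g a) (G : Finset T)
    (hG : ∀ t : T, t ∈ Subring.closure (Set.range σ ∪ (G : Set T)))
    (hDV : ∀ t, τ t ∈ V) :
    ∃ A' : Subalgebra R K, A'.FG ∧ (∀ a : A', (a : K) ∈ V) ∧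
      ∃ Q : Ideal A', ∃ (_ : Q.IsPrime), (∀ a : A', a ∈ Q ↔ V.valuation (a : K) < 1) ∧
        IsRegularLocalRing (Localization.AtPrime Q) := by
  classical
  let A' : Subalgebra R K := Algebra.adjoin R ((G.image τ : Finset K) : Set K)
  have hGmem : ∀ x ∈ G, τ x ∈ A' := fun x hx =>
    Algebra.subset_adjoin (Finset.mem_coe.2 (Finset.mem_image_of_mem τ hx))
  have hDA : ∀ t : T, τ t ∈ A' := by
    intro t
    have ht := hG t
    induction ht using Subring.closure_induction with
    | mem x hx =>
      rcases hx with ⟨a, rfl⟩ | hx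
      · rw [hσ, hg]
        exact Subalgebra.algebraMap_mem _ _
      · exact hGmem x hx
    | zero => rw [map_zero]; exact Subalgebra.zero_mem _
    | one => rw [map_one]; exact Subalgebra.one_mem _
    | add x y _ _ hx hy => rw [map_add]; exact Subalgebra.add_mem _ hx hy
    | neg x _ hx => rw [map_neg]; exact Subalgebra.neg_mem _ hx
    | mul x y _ _ hx hy => rw [map_mul]; exact Subalgebra.mul_mem _ hx hy
  have hAV : ∀ x ∈ A', x ∈ V := by
    intro x hx
    induction hx using Algebra.adjoin_induction with
    | mem x hx =>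
      obtain ⟨t, -, rfl⟩ := Finset.mem_image.1 (Finset.mem_coe.1 hx)
      exact hDV t
    | algebraMap r => exact hV r
    | add x y _ _ hx hy => exact V.add_mem _ _ hx hy
    | mul x y _ _ hx hy => exact V.mul_mem _ _ hx hy
  -- denominators
  have hden : ∀ x ∈ A', ∃ c : E, c ∉ P ∧ ∃ t : T, τ t = g c * x := by
    intro x hx
    induction hx using Algebra.adjoin_induction with
    | mem x hx =>
      obtain ⟨t, -, rfl⟩ := Finset.mem_image.1 (Finset.mem_coe.1 hx)
      refine ⟨1, fun h => (Ideal.ne_top_iff_one P).1 Ideal.IsPrime.ne_top' h, t, ?_⟩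
      rw [map_one, one_mul]
    | algebraMap r =>
      obtain ⟨⟨a, c⟩, hac⟩ := IsLocalization.surj P.primeCompl r
      refine ⟨c.1, c.2, σ a, ?_⟩
      rw [hσ, hg, hg, ← map_mul, mul_comm, hac]
    | add x y _ _ hx hy =>
      obtain ⟨c, hc, t, ht⟩ := hx
      obtain ⟨c', hc', t', ht'⟩ := hy
      refine ⟨c * c', fun h => (Ideal.IsPrime.mem_or_mem inferInstance h).elim hc hc',
        σ c' * t + σ c * t', ?_⟩
      rw [map_add, map_mul, map_mul, ht, ht', hσ, hσ, map_mul]
      ring
    | mul x y _ _ hx hy =>
      obtain ⟨c, hc, t, ht⟩ := hx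
      obtain ⟨c', hc', t', ht'⟩ := hy
      refine ⟨c * c', fun h => (Ideal.IsPrime.mem_or_mem inferInstance h).elim hc hc',
        t * t', ?_⟩
      rw [map_mul, ht, ht', map_mul]
      ring
  let ι : A' →+* V := A'.val.toRingHom.codRestrict V.toSubring (fun x => hAV _ x.2)
  let Q : Ideal A' := (IsLocalRing.maximalIdeal V).comap ι
  have hQ : Q.IsPrime := Ideal.IsPrime.comap ι
  have hQm : ∀ a : A', a ∈ Q ↔ V.valuation (a : K) < 1 := by
    intro a
    change ι a ∈ IsLocalRing.maximalIdeal V ↔ _
    exact V.valuation_lt_one_iff (ι a)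
  refine ⟨A', ⟨G.image τ, rfl⟩, fun a => hAV _ a.2, Q, hQ, hQm, ?_⟩
  let j : T →+* A' := τ.codRestrict A'.toSubring (fun x => hDA x)
  have hj : ∀ x, ((j x : A') : K) = τ x := fun x => rfl
  let q : Ideal T := Q.comap j
  have hq : q.IsPrime := hQ.comap j
  have hreg' := hreg q
  let M := Localization.AtPrime Q
  let _ : Algebra T M := ((algebraMap A' M).comp j).toAlgebra
  have hDM : ∀ x : T, algebraMap T M x = algebraMap A' M (j x) := fun x => rfl
  have hMinj : Function.Injective (algebraMap A' M) :=
    IsLocalization.injective M Q.primeCompl_le_nonZeroDivisors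
  have hloc : IsLocalization.AtPrime M q := by
    refine ⟨?_, ?_, ?_⟩
    · rintro ⟨y, hy⟩
      exact IsLocalization.map_units M (⟨j y, hy⟩ : Q.primeCompl)
    · intro z
      obtain ⟨⟨a, b⟩, hab⟩ := IsLocalization.surj Q.primeCompl z
      obtain ⟨c, hc, t, ht⟩ := hden _ a.2
      obtain ⟨c', hc', t', ht'⟩ := hden _ b.1.2
      have hcc : c * c' ∉ P := fun h => (Ideal.IsPrime.mem_or_mem inferInstance h).elim hc hc'
      let d1 : T := σ c' * t
      let d2 : T := σ c * t'
      let γ : A' := j (σ (c * c'))
      have hγ : γ ∉ Q := by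
        rw [hQm]
        change ¬ V.valuation (τ (σ (c * c'))) < 1
        rw [hσ]
        exact hVm _ hcc
      have e1 : j d1 = γ * a := by
        apply Subtype.ext
        change τ (σ c' * t) = τ (σ (c * c')) * a
        rw [map_mul, ht, hσ, hσ, map_mul]
        ring
      have e2 : j d2 = γ * b.1 := by
        apply Subtype.ext
        change τ (σ c * t') = τ (σ (c * c')) * ((b.1 : A') : K)
        rw [map_mul, ht', hσ, hσ, map_mul]
        ring
      have hd2 : d2 ∉ q := by
        intro h
        have h1 : j d2 ∈ Q := h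
        rw [e2] at h1
        exact (hQ.mem_or_mem h1).elim hγ b.2
      refine ⟨⟨d1, ⟨d2, hd2⟩⟩, ?_⟩
      change z * algebraMap A' M (j d2) = algebraMap A' M (j d1)
      rw [e1, e2, map_mul, map_mul, ← hab]
      ring
    · intro x y hxy
      refine ⟨1, ?_⟩
      have h1 : j x = j y := hMinj hxy
      have h2 : x = y := hτ (congrArg (fun t : A' => (t : K)) h1)
      rw [h2]
  exact IsRegularLocalRing.of_ringEquiv
    (IsLocalization.algEquiv q.primeCompl (Localization.AtPrime q) M).toRingEquiv

end Pool.Agent.P8H16.LB
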