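import Pool.Agent.H519R3.RS.LUS
import Pool.Agent.P8H16.LB.Reg

/-!
Local uniformization of the local rings of the domains `E` which are smooth over `B ⊗ A`, where
`Spec A` is a variety over `k` with a resolution of singularities and `B` is a regular `k`-algebra.
-/

set_option autoImplicit false
set_option linter.unusedSectionVars false

open AlgebraicGeometry CategoryTheory TensorProduct Pool.Agent.H920R2 Pool.Agent.H519R3.RS

namespace Pool.Agent.P8H16.LB

theorem regular_one_tmul {k B A : Type} [Field k] [CommRing B] [Algebra k B] [CommRing A]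
    [IsDomain A] [Algebra k A] {a : A} (ha : a ≠ 0) :
    IsSMulRegular (B ⊗[k] A) ((1 : B) ⊗ₜ[k] a : B ⊗[k] A) := by
  have h1 : Function.Injective (LinearMap.mulLeft k a) := by
    intro x y hxy
    exact mul_left_cancel₀ ha hxy
  have h2 : Function.Injective (LinearMap.lTensor B (LinearMap.mulLeft k a)) :=
    Module.Flat.lTensor_preserves_injective_linearMap (M := B) _ h1
  have h3 : ∀ x : B ⊗[k] A, ((1 : B) ⊗ₜ[k] a : B ⊗[k] A) * x =
      LinearMap.lTensor B (LinearMap.mulLeft k a) x := by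
    intro x
    induction x using TensorProduct.induction_on with
    | zero => rw [mul_zero, map_zero]
    | tmul b c => rw [Algebra.TensorProduct.tmul_mul_tmul, one_mul, LinearMap.lTensor_tmul]; rfl
    | add x y hx hy => rw [mul_add, map_add, hx, hy]
  intro x y hxy
  apply h2
  rw [← h3, ← h3]
  exact hxy

/-- The uniformizing ring `T = (B ⊗ D) ⊗_{B ⊗ A} E` for a subring `D` of the field of fractions
`F` of `A`, smooth over `k`. -/
theorem lu_core {k A B E F K : Type} [Field k] [CommRing A] [IsDomain A] [Algebra k A]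
    [CommRing B] [IsRegularRing B] [Algebra k B]
    [CommRing E] [IsDomain E] [Algebra (B ⊗[k] A) E] [Algebra.Smooth (B ⊗[k] A) E]
    [Field F] [Algebra A F] [IsFractionRing A F] [Algebra k F] [IsScalarTower k A F]
    [Field K] (e : E →+* K) (he : Function.Injective e) (V : ValuationSubring K)
    (heV : ∀ x, e x ∈ V) (jF : F →+* K)
    (hjF : ∀ a : A, jF (algebraMap A F a) = e (algebraMap (B ⊗[k] A) E (1 ⊗ₜ a)))
    (D : Subalgebra k F) (hD : Algebra.Smooth k D) (hAD : ∀ a, algebraMap A F a ∈ D)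
    (hDV : ∀ x ∈ D, jF x ∈ V) :
    ∃ (T : Type) (_ : CommRing T) (τ : T →+* K), Function.Injective τ ∧
      (∀ (q : Ideal T) [q.IsPrime], IsRegularLocalRing (Localization.AtPrime q)) ∧
      ∃ σ : E →+* T, (∀ x, τ (σ x) = e x) ∧ ∃ G : Finset T,
        (∀ t : T, t ∈ Subring.closure (Set.range σ ∪ (G : Set T))) ∧ ∀ t, τ t ∈ V := by
  classical
  let α : A →ₐ[k] D := (IsScalarTower.toAlgHom k A F).codRestrict D hAD
  have hα : ∀ a, ((α a : D) : F) = algebraMap A F a := fun a => rfl
  have hαinj : Function.Injective α := by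
    intro a b hab
    exact IsFractionRing.injective A F (congrArg Subtype.val hab)
  let θ : (B ⊗[k] A) →ₐ[k] (B ⊗[k] D) := Algebra.TensorProduct.map (AlgHom.id k B) α
  have hθ : ∀ b a, θ (b ⊗ₜ a) = b ⊗ₜ α a := fun b a => rfl
  let algS : Algebra (B ⊗[k] A) (B ⊗[k] D) := θ.toRingHom.toAlgebra
  have hmap : ∀ s, algebraMap (B ⊗[k] A) (B ⊗[k] D) s = θ s := fun _ => rfl
  let T := (B ⊗[k] D) ⊗[B ⊗[k] A] E
  -- the homomorphism to `K`
  let u : (B ⊗[k] A) →+* K := e.comp (algebraMap (B ⊗[k] A) E)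
  let algK : Algebra k K := (jF.comp (algebraMap k F)).toAlgebra
  let fB : B →ₐ[k] K :=
    { u.comp (Algebra.TensorProduct.includeLeft : B →ₐ[k] B ⊗[k] A).toRingHom with
      commutes' := by
        intro c
        change u (algebraMap k B c ⊗ₜ[k] (1 : A)) = jF (algebraMap k F c)
        rw [IsScalarTower.algebraMap_apply k A F, hjF]
        change u _ = u _
        congr 1
        rw [Algebra.algebraMap_eq_smul_one, Algebra.algebraMap_eq_smul_one, TensorProduct.smul_tmul] }
  have hfB : ∀ b, fB b = u (b ⊗ₜ[k] (1 : A)) := fun _ => rfl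
  let fD : D →ₐ[k] K :=
    { jF.comp D.val.toRingHom with
      commutes' := fun c => rfl }
  have hfD : ∀ d : D, fD d = jF d := fun _ => rfl
  let f1 : (B ⊗[k] D) →ₐ[k] K := Algebra.TensorProduct.productMap fB fD
  have hf1 : ∀ b d, f1 (b ⊗ₜ d) = u (b ⊗ₜ[k] (1 : A)) * jF d := by
    intro b d
    exact Algebra.TensorProduct.productMap_apply_tmul fB fD b d
  have hf1θ : ∀ s, f1 (θ s) = u s := by
    intro s
    induction s using TensorProduct.induction_on with
    | zero => rw [map_zero, map_zero, map_zero]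
    | tmul b a =>
      rw [hθ, hf1, hα, hjF]
      change u _ * u _ = u _
      rw [← map_mul, Algebra.TensorProduct.tmul_mul_tmul, mul_one, one_mul]
    | add x y hx hy => rw [map_add, map_add, map_add, hx, hy]
  let algSK : Algebra (B ⊗[k] A) K := u.toAlgebra
  let f1S : (B ⊗[k] D) →ₐ[B ⊗[k] A] K :=
    { f1.toRingHom with commutes' := fun s => hf1θ s }
  let f2S : E →ₐ[B ⊗[k] A] K := { e with commutes' := fun s => rfl }
  let τ : T →ₐ[B ⊗[k] A] K := Algebra.TensorProduct.productMap f1S f2S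
  have hτ : ∀ s x, τ (s ⊗ₜ x) = f1 s * e x := by
    intro s x
    exact Algebra.TensorProduct.productMap_apply_tmul f1S f2S s x
  let σ : E →+* T := (Algebra.TensorProduct.includeRight : E →ₐ[B ⊗[k] A] T).toRingHom
  have hσ : ∀ x, σ x = (1 : B ⊗[k] D) ⊗ₜ[B ⊗[k] A] x := fun _ => rfl
  have hτσ : ∀ x, τ (σ x) = e x := by
    intro x
    rw [hσ, hτ, map_one, one_mul]
  have hθσ : ∀ s : B ⊗[k] A, (θ s ⊗ₜ[B ⊗[k] A] (1 : E) : T) = σ (algebraMap _ E s) := by
    intro s
    rw [hσ, ← hmap, Algebra.algebraMap_eq_smul_one, Algebra.algebraMap_eq_smul_one]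
    exact TensorProduct.smul_tmul s (1 : B ⊗[k] D) (1 : E)
  -- denominators in `B ⊗ D`
  have hden1 : ∀ s' : B ⊗[k] D, ∃ a : A, a ≠ 0 ∧ ∃ r : B ⊗[k] A, θ (1 ⊗ₜ a) * s' = θ r := by
    intro s'
    induction s' using TensorProduct.induction_on with
    | zero => exact ⟨1, one_ne_zero, 0, by rw [mul_zero, map_zero]⟩
    | tmul b d =>
      obtain ⟨⟨x, y⟩, hxy⟩ := IsLocalization.surj (nonZeroDivisors A) (d : F)
      refine ⟨y, nonZeroDivisors.ne_zero y.2, b ⊗ₜ x, ?_⟩
      have h1 : α y * d = α x := by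
        apply Subtype.ext
        change algebraMap A F y * (d : F) = algebraMap A F x
        rw [mul_comm]
        exact hxy
      rw [hθ, hθ, Algebra.TensorProduct.tmul_mul_tmul, one_mul, h1]
    | add x y hx hy =>
      obtain ⟨a, ha, r, hr⟩ := hx
      obtain ⟨a', ha', r', hr'⟩ := hy
      refine ⟨a * a', mul_ne_zero ha ha', (1 ⊗ₜ a') * r + (1 ⊗ₜ a) * r', ?_⟩
      have h1 : ((1 : B) ⊗ₜ[k] (a * a') : B ⊗[k] A) = (1 ⊗ₜ a) * (1 ⊗ₜ a') := by
        rw [Algebra.TensorProduct.tmul_mul_tmul, one_mul]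
      rw [h1, map_add, map_mul, map_mul, map_mul, ← hr, ← hr']
      ring
  -- denominators in `T`
  have hden : ∀ t : T, ∃ a : A, a ≠ 0 ∧ ∃ x : E, (θ (1 ⊗ₜ a) ⊗ₜ[B ⊗[k] A] (1 : E) : T) * t = σ x := by
    intro t
    induction t using TensorProduct.induction_on with
    | zero => exact ⟨1, one_ne_zero, 0, by rw [map_zero]; exact mul_zero (M₀ := T) _⟩
    | tmul s' x =>
      obtain ⟨a, ha, r, hr⟩ := hden1 s'
      refine ⟨a, ha, algebraMap _ E r * x, ?_⟩
      rw [Algebra.TensorProduct.tmul_mul_tmul, one_mul, hr, map_mul, ← hθσ, hσ,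
        Algebra.TensorProduct.tmul_mul_tmul, one_mul, mul_one]
    | add t t' ht ht' =>
      obtain ⟨a, ha, x, hx⟩ := ht
      obtain ⟨a', ha', x', hx'⟩ := ht'
      refine ⟨a * a', mul_ne_zero ha ha', algebraMap (B ⊗[k] A) E (1 ⊗ₜ a') * x +
        algebraMap (B ⊗[k] A) E (1 ⊗ₜ a) * x', ?_⟩
      have h1 : (θ ((1 : B) ⊗ₜ[k] (a * a')) ⊗ₜ[B ⊗[k] A] (1 : E) : T) =
          (θ (1 ⊗ₜ a) ⊗ₜ[B ⊗[k] A] (1 : E) : T) * (θ (1 ⊗ₜ a') ⊗ₜ[B ⊗[k] A] (1 : E) : T) := by
        rw [Algebra.TensorProduct.tmul_mul_tmul, mul_one, ← map_mul,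
          Algebra.TensorProduct.tmul_mul_tmul, one_mul]
      rw [h1, map_add, map_mul, map_mul, ← hx, ← hx', ← hθσ, ← hθσ]
      ring
  have hinj : Function.Injective τ := by
    rw [injective_iff_map_eq_zero]
    intro t ht
    obtain ⟨a, ha, x, hx⟩ := hden t
    have h1 : e x = 0 := by
      rw [← hτσ, ← hx, map_mul, ht, mul_zero]
    have h2 : x = 0 := he (by rw [h1, map_zero])
    rw [h2, map_zero] at hx
    have h3 : IsSMulRegular (B ⊗[k] D) (θ (1 ⊗ₜ a)) := by
      rw [hθ]
      refine regular_one_tmul (B := B) ?_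
      intro h
      exact ha (hαinj (by rw [h, map_zero]))
    have hfl : Module.Flat (B ⊗[k] D) T := inferInstance
    have h4 := IsSMulRegular.of_flat (S := T) h3
    apply h4
    exact hx.trans (mul_zero (M₀ := T) (algebraMap (B ⊗[k] D) T (θ (1 ⊗ₜ a)))).symm
  -- values
  have huV : ∀ s, u s ∈ V := fun s => heV _
  have hf1V : ∀ s, f1 s ∈ V := by
    intro s
    induction s using TensorProduct.induction_on with
    | zero => rw [map_zero]; exact V.zero_mem
    | tmul b d => rw [hf1]; exact V.mul_mem _ _ (huV _) (hDV _ d.2)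
    | add x y hx hy => rw [map_add]; exact V.add_mem _ _ hx hy
  have hτV : ∀ t, τ t ∈ V := by
    intro t
    induction t using TensorProduct.induction_on with
    | zero => rw [map_zero]; exact V.zero_mem
    | tmul s x => rw [hτ]; exact V.mul_mem _ _ (hf1V _) (heV _)
    | add x y hx hy => rw [map_add]; exact V.add_mem _ _ hx hy
  -- generators
  have hft : Algebra.FiniteType k D := inferInstance
  obtain ⟨G0, hG0⟩ := hft.out
  let G : Finset T := G0.image fun d => (((1 : B) ⊗ₜ[k] d : B ⊗[k] D) ⊗ₜ[B ⊗[k] A] (1 : E) : T)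
  let C : Subring T := Subring.closure (Set.range σ ∪ (G : Set T))
  have hCσ : ∀ x, σ x ∈ C := fun x => Subring.subset_closure (Or.inl ⟨x, rfl⟩)
  have hCD : ∀ d : D, (((1 : B) ⊗ₜ[k] d : B ⊗[k] D) ⊗ₜ[B ⊗[k] A] (1 : E) : T) ∈ C := by
    intro d
    have hd : d ∈ Algebra.adjoin k (G0 : Set D) := by rw [hG0]; trivial
    induction hd using Algebra.adjoin_induction with
    | mem x hx =>
      exact Subring.subset_closure (Or.inr (Finset.mem_coe.2 (Finset.mem_image_of_mem _ hx)))
    | algebraMap c =>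
      have h1 : ((1 : B) ⊗ₜ[k] (algebraMap k D c) : B ⊗[k] D) = θ (1 ⊗ₜ algebraMap k A c) := by
        rw [hθ, AlgHom.commutes]
      rw [h1, hθσ]
      exact hCσ _
    | add x y _ _ hx hy =>
      rw [TensorProduct.tmul_add, TensorProduct.add_tmul]
      exact C.add_mem hx hy
    | mul x y _ _ hx hy =>
      have h1 : (((1 : B) ⊗ₜ[k] (x * y) : B ⊗[k] D) ⊗ₜ[B ⊗[k] A] (1 : E) : T) =
          (((1 : B) ⊗ₜ[k] x : B ⊗[k] D) ⊗ₜ[B ⊗[k] A] (1 : E) : T) *
          (((1 : B) ⊗ₜ[k] y : B ⊗[k] D) ⊗ₜ[B ⊗[k] A] (1 : E) : T) := by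
        rw [Algebra.TensorProduct.tmul_mul_tmul, mul_one, Algebra.TensorProduct.tmul_mul_tmul,
          one_mul]
      rw [h1]
      exact C.mul_mem hx hy
  have hCS : ∀ s' : B ⊗[k] D, (s' ⊗ₜ[B ⊗[k] A] (1 : E) : T) ∈ C := by
    intro s'
    induction s' using TensorProduct.induction_on with
    | zero => rw [TensorProduct.zero_tmul]; exact C.zero_mem
    | tmul b d =>
      have h1 : ((b ⊗ₜ[k] d : B ⊗[k] D) ⊗ₜ[B ⊗[k] A] (1 : E) : T) =
          ((θ (b ⊗ₜ 1)) ⊗ₜ[B ⊗[k] A] (1 : E) : T) *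
          (((1 : B) ⊗ₜ[k] d : B ⊗[k] D) ⊗ₜ[B ⊗[k] A] (1 : E) : T) := by
        rw [Algebra.TensorProduct.tmul_mul_tmul, mul_one, hθ, map_one,
          Algebra.TensorProduct.tmul_mul_tmul, one_mul, mul_one]
      rw [h1, hθσ]
      exact C.mul_mem (hCσ _) (hCD _)
    | add x y hx hy => rw [TensorProduct.add_tmul]; exact C.add_mem hx hy
  have hCT : ∀ t : T, t ∈ C := by
    intro t
    induction t using TensorProduct.induction_on with
    | zero => exact C.zero_mem
    | tmul s x =>
      have h1 : (s ⊗ₜ[B ⊗[k] A] x : T) = (s ⊗ₜ[B ⊗[k] A] (1 : E) : T) * σ x := by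
        rw [hσ, Algebra.TensorProduct.tmul_mul_tmul, mul_one, one_mul]
      rw [h1]
      exact C.mul_mem (hCS _) (hCσ _)
    | add x y hx hy => exact C.add_mem hx hy
  exact ⟨T, inferInstance, τ.toRingHom, hinj, fun q _ =>
    regular_tensor (B := B) (S := B ⊗[k] A) (S' := B ⊗[k] D) (E := E) q, σ, hτσ, G, hCT, hτV⟩

/-- Local uniformization of the local rings of the domains `E` which are smooth over `B ⊗ A`. -/
theorem admitsLU_baseChange {k A B E : Type} [Field k] [CommRing A] [IsDomain A] [Algebra k A]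
    (h : HasResolution (X := Spec (CommRingCat.of A))
      (Spec.map (CommRingCat.ofHom (algebraMap k A))))
    [CommRing B] [IsRegularRing B] [Algebra k B]
    [CommRing E] [IsDomain E] [Algebra (B ⊗[k] A) E] [Algebra.Smooth (B ⊗[k] A) E]
    (P : Ideal E) [P.IsPrime] (R : Type) [CommRing R] [IsLocalRing R] [Algebra E R]
    [IsLocalization.AtPrime R P] : AdmitsLU R := by
  intro K _ _ _ V hV hVm
  let e : E →+* K := (algebraMap R K).comp (algebraMap E R)
  have he : Function.Injective e := by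
    have e1 : Function.Injective (algebraMap E R) :=
      IsLocalization.injective R P.primeCompl_le_nonZeroDivisors
    have e2 : Function.Injective (algebraMap R K) := IsFractionRing.injective R K
    exact e2.comp e1
  let iA : A →+* K := (e.comp (algebraMap (B ⊗[k] A) E)).comp
    (Algebra.TensorProduct.includeRight : A →ₐ[k] B ⊗[k] A).toRingHom
  have hflat : Module.Flat (B ⊗[k] A) E := inferInstance
  have hS : ∀ a : A, a ≠ 0 → algebraMap (B ⊗[k] A) E (1 ⊗ₜ a) ≠ 0 := by
    intro a ha h0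
    have h1 : IsSMulRegular E (algebraMap (B ⊗[k] A) E (1 ⊗ₜ a)) :=
      (regular_one_tmul (B := B) ha).of_flat
    rw [h0] at h1
    have h2 : (1 : E) = 0 := h1 (by
      change (0 : E) * 1 = 0 * 0
      rw [zero_mul, zero_mul])
    exact one_ne_zero h2
  have hiA : Function.Injective iA := by
    rw [injective_iff_map_eq_zero]
    intro a ha
    by_contra hne
    exact hS a hne (he (by rw [map_zero]; exact ha))
  let jF : FractionRing A →+* K := IsFractionRing.lift hiA
  have hjF : ∀ a, jF (algebraMap A (FractionRing A) a) = iA a := IsFractionRing.lift_algebraMap hiA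
  obtain ⟨D, hDsm, hAD, hDV⟩ := lu_of_hasResolution h
    (IsScalarTower.toAlgHom k A (FractionRing A)) (IsFractionRing.injective A (FractionRing A))
    (V.comap jF) (fun a => by
      rw [ValuationSubring.mem_comap]
      change jF (algebraMap A (FractionRing A) a) ∈ V
      rw [hjF]
      exact hV _)
  obtain ⟨T, _, τ, hτ, hreg, σ, hσ, G, hG, hTV⟩ := lu_core (k := k) (A := A) (B := B) e he V
    (fun x => hV _) jF hjF D hDsm hAD (fun x hx => ValuationSubring.mem_comap.1 (hDV x hx))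
  refine lu_local_ring P e (fun a => rfl) V hV ?_ τ hτ hreg σ hσ G hG hTV
  intro a ha hlt
  have h3 := (hVm (algebraMap E R a)).2 hlt
  exact h3 (IsLocalization.map_units R (⟨a, ha⟩ : P.primeCompl))

end Pool.Agent.P8H16.LB
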